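import Mathlib
import Pool.Agent.Helper844.LieFP.Defs
import Pool.Agent.Helper844.LieFP.Main

/-!
# Varieties of Lie algebras containing all abelian-by-(nilpotent of class 3) algebras

Over a field of characteristic zero, every variety of Lie algebras that contains the variety of
abelian-by-(nilpotent of class 3) Lie algebras has a member that is finitely presented (both in the
absolute sense and relative to the variety) and not residually finite-dimensional.

The algebra is generated by `D, Q, v` subject to six relations; with `X = [D,Q]`, `Z = [D,X]` these
say that `D, Q, X, Z` span the nilpotent Lie algebra of the operators `∂, x²/2, x, 1` on `k[x]`,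
and `v` generates the module `k[x]`. The relation `[v,[X,v]] = 0` already implies that the
module is an abelian ideal, because `X` and `Q` act on its exterior square as multiplications by
`x + y` and `(x² + y²)/2`. The vectors `X^i v` are eigenvectors of `ad X ∘ ad D` with the distinct
eigenvalues `i`, so `v` vanishes in every finite-dimensional image.
-/

set_option autoImplicit false

namespace Pool.Agent.Results.MP_240c17_al.AboveAN3

open Pool.Agent.Helper844.LieFP

universe u

/-- If a variety of Lie algebras over a field of characteristic zero contains all
abelian-by-(nilpotent of class 3) Lie algebras, then it contains a Lie algebra that is finitely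
presented, absolutely and relative to the variety, and not residually finite-dimensional. -/
theorem result (k : Type u) [Field k] [CharZero k] (I : Set (FreeLieAlgebra k ℕ))
    (hI : ∀ (L : Type u) [LieRing L] [LieAlgebra k L], AbelianByNilpotent3 L → InVariety I L) :
    ∃ (L : Type u) (_ : LieRing L) (_ : LieAlgebra k L), InVariety I L ∧
      FinitelyPresented k L ∧ FinitelyPresentedIn I L ∧ ¬ ResiduallyFiniteDimensional k L :=
  main k I hI

end Pool.Agent.Results.MP_240c17_al.AboveAN3
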